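import Pool.Agent.W325.KZ.Defs

set_option autoImplicit false

/-!
Part GOOD: the good event for the lower polynomial.
-/

open Finset MeasureTheory ProbabilityTheory Filter Topology

namespace Pool.Agent.W73.KZ

open Pool.Agent.W325.KZ

theorem Zr_mono {f : ℝ → ℝ} {I : Set ℝ} {k l : ℕ} (h : k ≤ l) (hz : Zr f I l) : Zr f I k := by
  obtain ⟨S, h1, h2⟩ := hz
  exact ⟨S, h.trans h1, h2⟩

theorem pol_eq {a b : ℕ → ℝ} {n : ℕ} (h : ∀ k < n, a k = b k) : pol a n = pol b n := by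
  funext x
  unfold pol
  refine Finset.sum_congr rfl fun k hk => ?_
  rw [h k (Finset.mem_range.mp hk)]

theorem rv_eq {a b : ℕ → ℝ} {n : ℕ} (h : ∀ k < n, a k = b k) : ∀ k < n, rv a n k = rv b n k := by
  intro k hk
  unfold rv
  exact h _ (by omega)

theorem Cr_iff {a b : ℕ → ℝ} {n : ℕ} (h : pol a n = pol b n) (s u : ℝ) :
    Cr a n s u ↔ Cr b n s u := by
  unfold Cr
  rw [h]

theorem union_le {A B : Set (ℕ → ℝ)} {x y : ℝ} (hx : 0 ≤ x) (hy : 0 ≤ y)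
    (hA : ga A ≤ ENNReal.ofReal x) (hB : ga B ≤ ENNReal.ofReal y) :
    ga (A ∪ B) ≤ ENNReal.ofReal (x + y) := by
  rw [ENNReal.ofReal_add hx hy]
  exact (measure_union_le A B).trans (add_le_add hA hB)

theorem gauss_tail (c : ℝ) (hc : 0 < c) :
    gaussianReal 0 1 {x : ℝ | c < |x|} ≤ ENNReal.ofReal (1 / c ^ 2) := by
  have h1 : MemLp (id : ℝ → ℝ) 2 (gaussianReal 0 1) := memLp_id_gaussianReal 2
  have h2 := meas_ge_le_variance_div_sq h1 hc
  rw [variance_id_gaussianReal] at h2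
  have h3 : ∫ x : ℝ, id x ∂(gaussianReal 0 1) = 0 := integral_id_gaussianReal
  rw [h3] at h2
  refine (measure_mono ?_).trans h2
  intro x hx
  show c ≤ |id x - 0|
  rw [sub_zero]
  exact le_of_lt hx

theorem coord_tail (k : ℕ) (c : ℝ) (hc : 0 < c) :
    ga {a : ℕ → ℝ | c < |a k|} ≤ ENNReal.ofReal (1 / c ^ 2) := by
  have hmp : MeasurePreserving (Function.eval k) ga (gaussianReal 0 1) :=
    measurePreserving_eval_infinitePi (fun _ : ℕ => gaussianReal 0 1) k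
  have hms : MeasurableSet {x : ℝ | c < |x|} := measurableSet_lt measurable_const (by fun_prop)
  have h1 := hmp.measure_preimage hms.nullMeasurableSet
  have h2 : (Function.eval k : (ℕ → ℝ) → ℝ) ⁻¹' {x : ℝ | c < |x|} = {a : ℕ → ℝ | c < |a k|} := rfl
  rw [h2] at h1
  rw [h1]
  exact gauss_tail c hc

theorem max_tail (n : ℕ) (hn : 1 ≤ n) :
    ga {a : ℕ → ℝ | ∃ k < n, (n : ℝ) < |a k|} ≤ ENNReal.ofReal (1 / n) := by
  have hn0 : (0 : ℝ) < n := by exact_mod_cast hn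
  have h1 : {a : ℕ → ℝ | ∃ k < n, (n : ℝ) < |a k|} =
      ⋃ k ∈ Finset.range n, {a : ℕ → ℝ | (n : ℝ) < |a k|} := by
    ext a
    simp only [Set.mem_ofPred_eq, Set.mem_iUnion, Finset.mem_range, exists_prop]
  rw [h1]
  refine (measure_biUnion_finset_le _ _).trans ?_
  calc ∑ k ∈ Finset.range n, ga {a : ℕ → ℝ | (n : ℝ) < |a k|}
      ≤ ∑ _k ∈ Finset.range n, ENNReal.ofReal (1 / (n : ℝ) ^ 2) :=
        Finset.sum_le_sum fun k _ => coord_tail k n hn0
    _ = ENNReal.ofReal (1 / n) := by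
        rw [Finset.sum_const, Finset.card_range, nsmul_eq_mul, ← ENNReal.ofReal_natCast,
          ← ENNReal.ofReal_mul hn0.le]
        congr 1
        field_simp

/-- transfer to the reversed coefficients -/
theorem rev_law (hI : S_INJ) (n : ℕ) (A : Set (ℕ → ℝ)) (hA : MeasurableSet A)
    (hd : ∀ a b : ℕ → ℝ, (∀ k < n, a k = b k) → (a ∈ A ↔ b ∈ A)) :
    ga {a | rv a n ∈ A} = ga A := by
  have hinj : Set.InjOn (fun k : ℕ => n - 1 - k) {k | k < n} := by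
    intro k hk l hl h
    have hk' : k < n := hk
    have hl' : l < n := hl
    have h' : n - 1 - k = n - 1 - l := h
    omega
  exact hI _ _ hinj A hA (fun a b h => propext (hd a b h))

theorem sqrt_small {C ε q : ℝ} (hC : 0 < C) (hε : 0 < ε) (hq : 0 < q)
    (h : (6 * C / ε) ^ 2 ≤ q) : C * Real.sqrt (1 / q) ≤ ε / 6 := by
  have h1 : Real.sqrt (1 / q) ≤ ε / (6 * C) := by
    rw [Real.sqrt_le_left (by positivity)]
    rw [div_le_iff₀ hq]
    have h2 : (ε / (6 * C)) ^ 2 * (6 * C / ε) ^ 2 = 1 := by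
      field_simp
    calc (1 : ℝ) = (ε / (6 * C)) ^ 2 * (6 * C / ε) ^ 2 := h2.symm
      _ ≤ (ε / (6 * C)) ^ 2 * q := mul_le_mul_of_nonneg_left h (by positivity)
  calc C * Real.sqrt (1 / q) ≤ C * (ε / (6 * C)) := mul_le_mul_of_nonneg_left h1 hC.le
    _ = ε / 6 := by field_simp

theorem good (hY : S_TYP) (hC : S_CV) (hI : S_INJ) (hM : S_MEAS) (hS : S_AES) : S_GOOD := by
  intro hHP K hK η hη ε hε
  have hε6 : 0 < ε / 6 := by positivity
  obtain ⟨n₀, hn₀⟩ := hHP η hη (ε / 6) hε6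
  obtain ⟨q₁, hq₁⟩ := hY hHP η hη (ε / 6) hε6
  obtain ⟨C, hC0, hCV⟩ := hC
  refine ⟨n₀ + q₁ + 2 + ⌈(6 * C / ε) ^ 2⌉₊ + ⌈6 / ε⌉₊, fun q hq n hn => ?_⟩
  have hq2 : 2 ≤ q := by omega
  have hqR : (2 : ℝ) ≤ q := by exact_mod_cast hq2
  have hq0 : (0 : ℝ) < q := by linarith
  have hq1 : (1 : ℝ) ≤ q := by linarith
  have hqC : (6 * C / ε) ^ 2 ≤ (q : ℝ) := by
    refine (Nat.le_ceil _).trans ?_
    exact_mod_cast (by omega : ⌈(6 * C / ε) ^ 2⌉₊ ≤ q)
  have hqε : 6 / ε ≤ (q : ℝ) := by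
    refine (Nat.le_ceil _).trans ?_
    exact_mod_cast (by omega : ⌈6 / ε⌉₊ ≤ q)
  have hpow : ∀ j, j ≤ K → q ^ j ≤ n := fun j hj =>
    (Nat.pow_le_pow_right (by omega) hj).trans hn
  have hqn : q ≤ n := by
    have := hpow 1 (by omega)
    rwa [pow_one] at this
  have hn1 : 1 ≤ n := by omega
  have hn2 : 2 ≤ n := by omega
  have hnR : (0 : ℝ) < n := by exact_mod_cast hn1
  have hqnR : (q : ℝ) ≤ n := by exact_mod_cast hqn
  have hlogq : 0 ≤ Real.log q := Real.log_nonneg hq1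
  have hlog : (K : ℝ) * Real.log q ≤ Real.log n := by
    rw [← Real.log_pow]
    apply Real.log_le_log (by positivity)
    exact_mod_cast hn
  obtain ⟨K0, hK0⟩ : ∃ K0 : ℕ, K0 = ⌊(2 / Real.pi - η) * (K * Real.log q)⌋₊ := ⟨_, rfl⟩
  obtain ⟨T0, hT0⟩ : ∃ T0 : ℕ, T0 = ⌈(16 / Real.pi + η) * Real.log q⌉₊ := ⟨_, rfl⟩
  have hT0' : (16 / Real.pi + η) * Real.log q ≤ T0 := by rw [hT0]; exact Nat.le_ceil _
  let E1 : Set (ℕ → ℝ) := {a | ¬ Zr (pol a n) Set.univ K0}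
  let E2 : Set (ℕ → ℝ) := {a | Zr (pol (rv a n) n) (Set.Icc (-rr q) (rr q)) T0}
  let E3 : Set (ℕ → ℝ) := {a | Cr a n 1 (1 / (q : ℝ))}
  let E4 : Set (ℕ → ℝ) := {a | Cr a n (1 / (q : ℝ) ^ 40) ((q : ℝ) ^ 17)}
  let E5 : Set (ℕ → ℝ) := {a | Cr (rv a n) n (1 / (q : ℝ) ^ 12) ((q : ℝ) ^ 5)}
  let E6 : Set (ℕ → ℝ) := {a | ∃ k < n, (n : ℝ) < |a k|}
  -- measurability
  have m1 : MeasurableSet E1 := ((hM n).2.1 K0).compl
  have m2' : MeasurableSet {a | Zr (pol a n) (Set.Icc (-rr q) (rr q)) T0} := (hM n).1 _ _ _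
  have m2 : MeasurableSet E2 := (hM n).2.2.2 m2'
  have m3 : MeasurableSet E3 := (hM n).2.2.1 _ _
  have m4 : MeasurableSet E4 := (hM n).2.2.1 _ _
  have m5' : MeasurableSet {a | Cr a n (1 / (q : ℝ) ^ 12) ((q : ℝ) ^ 5)} := (hM n).2.2.1 _ _
  have m5 : MeasurableSet E5 := (hM n).2.2.2 m5'
  have m6 : MeasurableSet E6 := by
    have h1 : E6 = ⋃ k ∈ Finset.range n, {a : ℕ → ℝ | (n : ℝ) < |a k|} := by
      ext a
      simp only [E6, Set.mem_ofPred_eq, Set.mem_iUnion, Finset.mem_range, exists_prop]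
    rw [h1]
    refine Finset.measurableSet_biUnion _ fun k _ => ?_
    exact measurableSet_lt measurable_const (by fun_prop)
  -- dependence
  have dep : ∀ a b : ℕ → ℝ, (∀ k < n, a k = b k) →
      (a ∈ E1 ∪ (E2 ∪ (E3 ∪ (E4 ∪ (E5 ∪ E6)))) ↔ b ∈ E1 ∪ (E2 ∪ (E3 ∪ (E4 ∪ (E5 ∪ E6))))) := by
    intro a b h
    have h1 := pol_eq h
    have h2 := pol_eq (rv_eq h)
    have e1 : a ∈ E1 ↔ b ∈ E1 := by
      show ¬ Zr (pol a n) Set.univ K0 ↔ ¬ Zr (pol b n) Set.univ K0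
      rw [h1]
    have e2 : a ∈ E2 ↔ b ∈ E2 := by
      show Zr (pol (rv a n) n) _ T0 ↔ Zr (pol (rv b n) n) _ T0
      rw [h2]
    have e3 : a ∈ E3 ↔ b ∈ E3 := Cr_iff h1 _ _
    have e4 : a ∈ E4 ↔ b ∈ E4 := Cr_iff h1 _ _
    have e5 : a ∈ E5 ↔ b ∈ E5 := Cr_iff h2 _ _
    have e6 : a ∈ E6 ↔ b ∈ E6 := by
      show (∃ k < n, (n : ℝ) < |a k|) ↔ (∃ k < n, (n : ℝ) < |b k|)
      constructor
      · rintro ⟨k, hk, h'⟩; exact ⟨k, hk, h k hk ▸ h'⟩
      · rintro ⟨k, hk, h'⟩; exact ⟨k, hk, (h k hk).symm ▸ h'⟩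
    simp only [Set.mem_union, e1, e2, e3, e4, e5, e6]
  -- measures
  have g1 : ga E1 ≤ ENNReal.ofReal (ε / 6) := by
    refine le_trans (measure_mono_ae ?_) (hn₀ n (by omega))
    filter_upwards [hS n hn1] with a ha
    intro ha1
    have ha1' : ¬ Zr (pol a n) Set.univ K0 := ha1
    show η * Real.log n < |(NR a n : ℝ) - 2 / Real.pi * Real.log n|
    by_contra hc
    rw [not_lt] at hc
    apply ha1'
    rw [← ha K0]
    have h1 := (abs_le.mp hc).1
    rcases le_or_gt 0 (2 / Real.pi - η) with h2 | h2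
    · have h3 : (2 / Real.pi - η) * (K * Real.log q) ≤ (2 / Real.pi - η) * Real.log n :=
        mul_le_mul_of_nonneg_left hlog h2
      have h4 : ((K0 : ℕ) : ℝ) ≤ (2 / Real.pi - η) * (K * Real.log q) := by
        rw [hK0]
        exact Nat.floor_le (by positivity)
      have h5 : ((K0 : ℕ) : ℝ) ≤ NR a n := by nlinarith
      exact_mod_cast h5
    · have h3 : (2 / Real.pi - η) * (K * Real.log q) ≤ 0 :=
        mul_nonpos_of_nonpos_of_nonneg h2.le (by positivity)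
      have h4 : K0 = 0 := by rw [hK0]; exact Nat.floor_of_nonpos h3
      rw [h4]
      exact Nat.zero_le _
  have g2 : ga E2 ≤ ENNReal.ofReal (ε / 6) := by
    have h1 := rev_law hI n _ m2' (fun a b h => by
      show Zr (pol a n) _ T0 ↔ Zr (pol b n) _ T0
      rw [pol_eq h])
    have h2 : ga E2 = ga {a | Zr (pol a n) (Set.Icc (-rr q) (rr q)) T0} := h1
    rw [h2]
    exact hq₁ q (by omega) n T0 (hpow 17 (by omega)) hT0'
  have hs := sqrt_small hC0 hε hq0 hqC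
  have g3 : ga E3 ≤ ENNReal.ofReal (ε / 6) := by
    refine (hCV n 1 (1 / (q : ℝ)) hn2 ?_ le_rfl (by positivity)).trans ?_
    · rw [div_le_one hnR]; exact_mod_cast hn1
    · apply ENNReal.ofReal_le_ofReal
      rw [Real.sqrt_one, mul_one]
      exact hs
  have hsq : ∀ j : ℕ, Real.sqrt (1 / (q : ℝ) ^ (2 * j)) = 1 / (q : ℝ) ^ j := by
    intro j
    have : 1 / (q : ℝ) ^ (2 * j) = (1 / (q : ℝ) ^ j) ^ 2 := by
      rw [div_pow, one_pow, ← pow_mul, mul_comm]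
    rw [this, Real.sqrt_sq (by positivity)]
  have hinv : ∀ j ≤ K, 1 / (n : ℝ) ≤ 1 / (q : ℝ) ^ j := by
    intro j hj
    apply one_div_le_one_div_of_le (by positivity)
    exact_mod_cast hpow j hj
  have hle1 : ∀ j : ℕ, 1 / (q : ℝ) ^ j ≤ 1 := by
    intro j
    rw [div_le_one (by positivity)]
    exact one_le_pow₀ hq1
  have g4 : ga E4 ≤ ENNReal.ofReal (ε / 6) := by
    refine (hCV n (1 / (q : ℝ) ^ 40) ((q : ℝ) ^ 17) hn2 (hinv 40 (by omega)) (hle1 40)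
      (by positivity)).trans ?_
    apply ENNReal.ofReal_le_ofReal
    refine le_trans ?_ hs
    apply mul_le_mul_of_nonneg_left _ hC0.le
    apply Real.sqrt_le_sqrt
    have h1 := hsq 20
    rw [show 2 * 20 = 40 by norm_num] at h1
    rw [h1]
    have h2 : (q : ℝ) ^ 17 * (1 / (q : ℝ) ^ 20) = 1 / (q : ℝ) ^ 3 := by
      field_simp
    rw [h2]
    apply one_div_le_one_div_of_le hq0
    calc (q : ℝ) = (q : ℝ) ^ 1 := (pow_one _).symm
      _ ≤ (q : ℝ) ^ 3 := pow_le_pow_right₀ hq1 (by norm_num)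
  have g5 : ga E5 ≤ ENNReal.ofReal (ε / 6) := by
    have h0 := rev_law hI n _ m5' (fun a b h => Cr_iff (pol_eq h) _ _)
    have h00 : ga E5 = ga {a | Cr a n (1 / (q : ℝ) ^ 12) ((q : ℝ) ^ 5)} := h0
    rw [h00]
    refine (hCV n (1 / (q : ℝ) ^ 12) ((q : ℝ) ^ 5) hn2 (hinv 12 (by omega)) (hle1 12)
      (by positivity)).trans ?_
    apply ENNReal.ofReal_le_ofReal
    refine le_trans ?_ hs
    apply mul_le_mul_of_nonneg_left _ hC0.le
    apply Real.sqrt_le_sqrt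
    have h1 := hsq 6
    rw [show 2 * 6 = 12 by norm_num] at h1
    rw [h1]
    have h2 : (q : ℝ) ^ 5 * (1 / (q : ℝ) ^ 6) = 1 / (q : ℝ) := by
      field_simp
    rw [h2]
  have g6 : ga E6 ≤ ENNReal.ofReal (ε / 6) := by
    refine (max_tail n hn1).trans ?_
    apply ENNReal.ofReal_le_ofReal
    rw [div_le_iff₀ hnR]
    have h1 : 6 / ε ≤ (n : ℝ) := hqε.trans hqnR
    rw [div_le_iff₀ hε] at h1
    nlinarith
  refine ⟨E1 ∪ (E2 ∪ (E3 ∪ (E4 ∪ (E5 ∪ E6)))),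
    m1.union (m2.union (m3.union (m4.union (m5.union m6)))),
    fun a b h => propext (dep a b h), ?_, ?_⟩
  · have h1 := union_le (by positivity) (by positivity) g1 (union_le (by positivity)
      (by positivity) g2 (union_le (by positivity) (by positivity) g3 (union_le (by positivity)
      (by positivity) g4 (union_le (by positivity) (by positivity) g5 g6))))
    refine h1.trans (le_of_eq ?_)
    congr 1
    ring
  · intro a ha K₁ T hK₁ hT
    simp only [Set.mem_union, not_or] at ha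
    obtain ⟨a1, a2, a3, a4, a5, a6⟩ := ha
    have a1' : Zr (pol a n) Set.univ K0 := not_not.mp a1
    refine ⟨Zr_mono ?_ a1', fun h => a2 (Zr_mono ?_ h), a3, a4, a5, ?_⟩
    · rw [hK0]; exact Nat.le_floor hK₁
    · rw [hT0]; exact Nat.ceil_le.mpr hT
    · intro k hk
      by_contra hc
      exact a6 ⟨k, hk, not_le.mp hc⟩

end Pool.Agent.W73.KZ
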